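import Pool.Agent.Lib.MP_ea1188_al.KG.H65.Cyc

/-! # Module EVC (MP_ea1188_al): the element `(1+g)(1+h)`; helper65. -/

set_option autoImplicit false

namespace KG.H65

open Matrix

/-- The sum of the binomial coefficients `C(j,r)`, `r = a` modulo `2^k`. -/
def bs (k j a : ℕ) : ℤ := ∑ r ∈ Finset.range (j + 1), if r % 2 ^ k = a then (j.choose r : ℤ) else 0

lemma bs_even (k j a : ℕ) (hj : 2 ^ k ≤ j) : (2 : ℤ) ∣ bs k j a := by
  by_cases ha : a < 2 ^ k
  swap
  · have : bs k j a = 0 := by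
      apply Finset.sum_eq_zero
      intro r _
      rw [if_neg]
      have := Nat.mod_lt r (show 2 ^ k > 0 by positivity)
      omega
    rw [this]; exact dvd_zero _
  let A := MonoidAlgebra (ZMod 2) (Multiplicative (ZMod (2 ^ k)))
  let x : A := MonoidAlgebra.of (ZMod 2) (Multiplicative (ZMod (2 ^ k))) (Multiplicative.ofAdd 1)
  have hchar : CharP A 2 := charP_of_injective_algebraMap (algebraMap (ZMod 2) A).injective 2
  have hx : x ^ (2 ^ k) = 1 := by
    show (MonoidAlgebra.of (ZMod 2) (Multiplicative (ZMod (2 ^ k))) _) ^ (2 ^ k) = 1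
    rw [← map_pow, ← ofAdd_nsmul]
    have : (2 ^ k) • (1 : ZMod (2 ^ k)) = 0 := by
      rw [nsmul_eq_mul, mul_one, ZMod.natCast_self]
    rw [this, ofAdd_zero, map_one]
  have h0 : (x + 1) ^ j = 0 := by
    have h1 : (x + 1) ^ (2 ^ k) = 0 := by
      rw [add_pow_char_pow, hx, one_pow]
      exact CharTwo.add_self_eq_zero 1
    obtain ⟨m, rfl⟩ := Nat.exists_eq_add_of_le hj
    rw [pow_add, h1, zero_mul]
  rw [add_pow] at h0
  have h2 := congrArg (fun p : A => p.coeff (Multiplicative.ofAdd (a : ZMod (2 ^ k)))) h0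
  simp only [one_pow, mul_one] at h2
  have h3 : ∀ r : ℕ, (x ^ r * (j.choose r : A)) =
      MonoidAlgebra.single (Multiplicative.ofAdd (r : ZMod (2 ^ k))) ((j.choose r : ZMod 2)) := by
    intro r
    have h4 : x ^ r = MonoidAlgebra.single (Multiplicative.ofAdd (r : ZMod (2 ^ k))) 1 := by
      show (MonoidAlgebra.of (ZMod 2) (Multiplicative (ZMod (2 ^ k))) _) ^ r = _
      rw [← map_pow, ← ofAdd_nsmul, nsmul_eq_mul, mul_one]
      rfl
    have h5 : (j.choose r : A) = MonoidAlgebra.single 1 ((j.choose r : ZMod 2)) := by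
      exact (map_natCast (algebraMap (ZMod 2) A) _).symm
    rw [h4, h5, MonoidAlgebra.single_mul_single]
    simp
  simp only [h3] at h2
  have h6 : ((bs k j a : ℤ) : ZMod 2) = 0 := by
    have h7 : (MonoidAlgebra.coeff (0 : A)) (Multiplicative.ofAdd (a : ZMod (2 ^ k))) = 0 := by simp
    rw [h7, MonoidAlgebra.coeff_sum, Finsupp.finsetSum_apply] at h2
    rw [bs, ← h2]
    push_cast
    refine Finset.sum_congr rfl fun r _ => ?_
    by_cases hr : r % 2 ^ k = a
    · have : (r : ZMod (2 ^ k)) = (a : ZMod (2 ^ k)) := by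
        rw [ZMod.natCast_eq_natCast_iff', Nat.mod_eq_of_lt ha, hr]
      rw [if_pos hr, this]
      simp
    · have : (r : ZMod (2 ^ k)) ≠ (a : ZMod (2 ^ k)) := by
        rw [Ne, ZMod.natCast_eq_natCast_iff', Nat.mod_eq_of_lt ha]
        exact hr
      rw [if_neg hr]
      simp [this]
  exact_mod_cast (ZMod.intCast_zmod_eq_zero_iff_dvd (bs k j a) 2).1 h6

lemma bs_dvd (k j : ℕ) (hk : 1 ≤ k) (hj : 1 ≤ j) :
    (2 : ℤ) ^ padicValNat 2 j ∣ 2 ^ (k - 1) * bs k j (2 ^ (k - 1)) := by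
  rw [bs, Finset.mul_sum]
  apply Finset.dvd_sum
  intro r _
  split_ifs with hr
  · have hr0 : r ≠ 0 := by
      rintro rfl
      have : 0 < 2 ^ (k - 1) := by positivity
      rw [Nat.zero_mod] at hr
      omega
    have h1 : (j.choose r : ℤ) * r = j * ((j - 1).choose (r - 1) : ℕ) := by
      obtain ⟨j', rfl⟩ : ∃ j', j = j' + 1 := ⟨j - 1, by omega⟩
      obtain ⟨r', rfl⟩ : ∃ r', r = r' + 1 := ⟨r - 1, by omega⟩
      have := Nat.add_one_mul_choose_eq j' r'
      simp only [Nat.add_sub_cancel]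
      exact_mod_cast this.symm
    have h2 : (2 : ℤ) ^ padicValNat 2 j ∣ (j.choose r : ℤ) * r := by
      rw [h1]
      exact (by exact_mod_cast (pow_padicValNat_dvd : 2 ^ padicValNat 2 j ∣ j) :
        (2 : ℤ) ^ padicValNat 2 j ∣ (j : ℤ)).mul_right _
    -- `r = 2^(k-1) * odd`
    obtain ⟨q, hq⟩ : ∃ q, r = 2 ^ (k - 1) * (2 * q + 1) := by
      refine ⟨r / 2 ^ k, ?_⟩
      have h3 := Nat.div_add_mod r (2 ^ k)
      rw [hr] at h3
      have h4 : 2 ^ k = 2 ^ (k - 1) * 2 := by rw [← pow_succ]; congr 1; omega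
      calc r = 2 ^ k * (r / 2 ^ k) + 2 ^ (k - 1) := h3.symm
        _ = _ := by rw [h4]; ring
    have h5 : (j.choose r : ℤ) * r = (2 ^ (k - 1) * (j.choose r : ℤ)) * (2 * q + 1) := by
      have : (r : ℤ) = 2 ^ (k - 1) * (2 * q + 1) := by exact_mod_cast hq
      rw [this]
      ring
    rw [h5] at h2
    apply IsCoprime.dvd_of_dvd_mul_right _ h2
    apply IsCoprime.pow_left
    exact ⟨-q, 1, by ring⟩
  · rw [mul_zero]; exact dvd_zero _

lemma bs_formula {Q : Type} [Group Q] [Fintype Q] (z : Q) (k : ℕ) (g h : Q) (hgh : g * h = h * g)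
    (hc : ∀ r s : ℕ, IsConj (g ^ r * h ^ s) z ↔ (r % 2 ^ k = 2 ^ (k - 1) ∧ s % 2 ^ k = 0)) (j : ℕ) :
    cz z ((Matrix.of fun _ _ : Fin 1 => (1 + MonoidAlgebra.of ℤ Q g) *
        (1 + MonoidAlgebra.of ℤ Q h)) ^ j) = bs k j (2 ^ (k - 1)) * bs k j 0 := by
  have h1 : ∀ (p : MonoidAlgebra ℤ Q) (j : ℕ), (Matrix.of fun _ _ : Fin 1 => p) ^ j =
      (Matrix.of fun _ _ : Fin 1 => p ^ j) := by
    intro p j
    induction j with
    | zero =>
      ext a b
      fin_cases a; fin_cases b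
      simp
    | succ j ih =>
      rw [pow_succ, ih]
      ext a b
      simp [Matrix.mul_apply, pow_succ]
  rw [h1, cz_eq, Fin.sum_univ_one]
  show tz z (((1 + MonoidAlgebra.of ℤ Q g) * (1 + MonoidAlgebra.of ℤ Q h)) ^ j) = _
  have hcomm : Commute (MonoidAlgebra.of ℤ Q g) (MonoidAlgebra.of ℤ Q h) := by
    show _ * _ = _ * _
    rw [← map_mul, hgh, map_mul]
  have hcomm' : Commute (1 + MonoidAlgebra.of ℤ Q g) (1 + MonoidAlgebra.of ℤ Q h) := by
    apply Commute.add_left (Commute.one_left _)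
    apply Commute.add_right (Commute.one_right _)
    exact hcomm
  have h2 : ∀ g : Q, (1 + MonoidAlgebra.of ℤ Q g) ^ j =
      ∑ r ∈ Finset.range (j + 1), MonoidAlgebra.single (g ^ r) (j.choose r : ℤ) := by
    intro g
    rw [add_comm, (Commute.one_right (MonoidAlgebra.of ℤ Q g)).add_pow]
    refine Finset.sum_congr rfl fun r _ => ?_
    rw [one_pow, mul_one, ← map_pow]
    have h5 : ((j.choose r : ℕ) : MonoidAlgebra ℤ Q) = MonoidAlgebra.single 1 (j.choose r : ℤ) :=
      (map_natCast (algebraMap ℤ (MonoidAlgebra ℤ Q)) _).symm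
    rw [h5, MonoidAlgebra.of_apply, MonoidAlgebra.single_mul_single]
    simp
  rw [hcomm'.mul_pow, h2 g, h2 h, Finset.sum_mul_sum, map_sum, bs, bs, Finset.sum_mul_sum]
  refine Finset.sum_congr rfl fun r _ => ?_
  rw [map_sum]
  refine Finset.sum_congr rfl fun s _ => ?_
  rw [MonoidAlgebra.single_mul_single]
  by_cases h3 : IsConj (g ^ r * h ^ s) z
  · rw [(tz_single z _ _).1 h3, if_pos ((hc r s).1 h3).1, if_pos ((hc r s).1 h3).2]
  · rw [(tz_single z _ _).2 h3]
    by_cases h4 : r % 2 ^ k = 2 ^ (k - 1)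
    · have h5 : ¬ s % 2 ^ k = 0 := fun h5 => h3 ((hc r s).2 ⟨h4, h5⟩)
      rw [if_neg h5, mul_zero]
    · rw [if_neg h4, zero_mul]

theorem evc : EvcS := by
  intro Q _ _ z k g h hk hgh hc
  have hM : 2 ^ k = 2 * 2 ^ (k - 1) := by rw [← pow_succ']; congr 1; omega
  have hMpos : 0 < 2 ^ (k - 1) := by positivity
  constructor
  · intro j hj hjM
    rw [bs_formula z k g h hgh hc j]
    by_cases h1 : padicValNat 2 j + 1 ≤ k - 1
    · exact (pow_dvd_pow _ h1).mul_right _
    by_cases h2 : j < 2 ^ (k - 1)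
    · have h3 : bs k j (2 ^ (k - 1)) = 0 := by
        apply Finset.sum_eq_zero
        intro r hr
        have hr' : r < j + 1 := Finset.mem_range.1 hr
        rw [if_neg]
        intro h4
        have h5 : r % 2 ^ k ≤ r := Nat.mod_le _ _
        omega
      rw [h3]; simp
    · -- `j ≥ 2^k`
      have h6 : 2 ^ (k - 1) ∣ j := (padicValNat_dvd_iff_le (by omega)).2 (by omega)
      obtain ⟨m, hm⟩ := h6
      have h7 : 2 ^ k ≤ j := by
        have hm2 : 2 ≤ m := by
          by_contra hcon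
          have : m = 0 ∨ m = 1 := by omega
          rcases this with rfl | rfl
          · omega
          · apply hjM; rw [hm, mul_one]
        rw [hM, hm, mul_comm 2]
        exact Nat.mul_le_mul_left _ hm2
      have h8 := bs_even k j 0 h7
      have h9 := bs_dvd k j hk hj
      rw [← mul_assoc, pow_succ]
      exact mul_dvd_mul h9 h8
  · rw [bs_formula z k g h hgh hc]
    have h1 : bs k (2 ^ (k - 1)) (2 ^ (k - 1)) = 1 := by
      rw [bs, Finset.sum_eq_single (2 ^ (k - 1))]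
      · rw [if_pos (Nat.mod_eq_of_lt (by omega))]
        simp
      · intro r hr hr'
        have : r < 2 ^ (k - 1) + 1 := Finset.mem_range.1 hr
        rw [if_neg]
        rw [Nat.mod_eq_of_lt (by omega)]
        exact hr'
      · intro hcon
        exact absurd (Finset.mem_range.2 (Nat.lt_succ_self _)) hcon
    have h2 : bs k (2 ^ (k - 1)) 0 = 1 := by
      rw [bs, Finset.sum_eq_single 0]
      · simp
      · intro r hr hr'
        have : r < 2 ^ (k - 1) + 1 := Finset.mem_range.1 hr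
        rw [if_neg]
        rw [Nat.mod_eq_of_lt (by omega)]
        exact hr'
      · intro hcon
        exact absurd (Finset.mem_range.2 (Nat.succ_pos _)) hcon
    rw [h1, h2, mul_one]

end KG.H65
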