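import Pool.Agent.Lib.MP_ea1188_al.KG.IfaceC

/-! # Module CYC (MP_ea1188_al): rotation of closed words; helper65. -/

set_option autoImplicit false

namespace KG.H65

open Matrix

/-- Weighted orbit counting for one permutation. -/
lemma orbit_sum {Ω : Type} [Fintype Ω] (σ : Equiv.Perm Ω) (f : Ω → ℤ) (hf : ∀ w, f (σ w) = f w)
    (D K : ℤ) (h : ∀ w, f w ≠ 0 → D ∣ K * (Function.minimalPeriod σ w : ℤ)) :
    D ∣ K * ∑ w, f w := by
  classical
  have hz : ∀ n : ℤ, ∀ w, f ((σ ^ n) w) = f w := by
    intro n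
    induction n using Int.induction_on with
    | zero => simp
    | succ n ih => intro w; rw [_root_.zpow_add_one, Equiv.Perm.mul_apply, ih, hf]
    | pred n ih =>
      intro w
      rw [_root_.zpow_sub_one, Equiv.Perm.mul_apply, ih, ← hf (σ⁻¹ w)]
      simp
  have hfix : ∀ (g : Subgroup.zpowers σ) (w : Ω), f (g • w) = f w := by
    rintro ⟨_, n, rfl⟩ w
    exact hz n w
  have h1 : ∑ w, f w = ∑ x : (Σ ω : MulAction.orbitRel.Quotient (Subgroup.zpowers σ) Ω,
      MulAction.orbit (Subgroup.zpowers σ) ω.out), f x.2 := by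
    rw [← Equiv.sum_comp (MulAction.selfEquivSigmaOrbits (Subgroup.zpowers σ) Ω)]
    rfl
  rw [h1, Fintype.sum_sigma, Finset.mul_sum]
  apply Finset.dvd_sum
  intro ω _
  have h2 : ∀ y : MulAction.orbit (Subgroup.zpowers σ) ω.out, f y = f ω.out := by
    rintro ⟨y, g, rfl⟩
    exact hfix g _
  rw [Finset.sum_congr rfl (fun y _ => h2 y), Finset.sum_const, Finset.card_univ,
    ← MulAction.minimalPeriod_eq_card, nsmul_eq_mul, ← mul_assoc]
  by_cases h0 : f ω.out = 0
  · rw [h0]; simp
  · exact (h _ h0).mul_right _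

/-- The ordered product of `u 0, …, u (n-1)`. -/
def pr {A : Type} [Monoid A] (u : ℕ → A) : ℕ → A
  | 0 => 1
  | n + 1 => pr u n * u n

section pr
variable {A : Type} [Monoid A] (u : ℕ → A)

lemma pr_succ (n : ℕ) : pr u (n + 1) = pr u n * u n := rfl

lemma pr_succ' (n : ℕ) : pr u (n + 1) = u 0 * pr (fun m => u (m + 1)) n := by
  induction n with
  | zero => simp [pr]
  | succ n ih => rw [pr_succ, ih, mul_assoc]; rfl

lemma pr_add (m n : ℕ) : pr u (m + n) = pr u m * pr (fun i => u (m + i)) n := by
  induction n with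
  | zero => simp [pr]
  | succ n ih => rw [← add_assoc, pr_succ, ih, mul_assoc]; rfl

lemma pr_period (d : ℕ) (h : ∀ m, u (m + d) = u m) (s : ℕ) : pr u (d * s) = pr u d ^ s := by
  induction s with
  | zero => simp [pr]
  | succ s ih =>
    have hs : ∀ i, u (d + i) = u i := fun i => by rw [add_comm, h]
    rw [Nat.mul_succ, add_comm, pr_add, pow_succ']
    simp only [hs]
    rw [ih]

lemma pr_mem (S : Set A) (hS : ∀ m, u m ∈ S) (hmul : ∀ x ∈ S, ∀ y ∈ S, x * y ∈ S) (n : ℕ) :
    pr u (n + 1) ∈ S := by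
  induction n with
  | zero => simpa [pr] using hS 0
  | succ n ih => exact hmul _ ih _ (hS _)

end pr

lemma ofFn_prod {A : Type} [Monoid A] (n : ℕ) (f : Fin n → A) (u : ℕ → A)
    (h : ∀ m : Fin n, u m = f m) : (List.ofFn f).prod = pr u n := by
  induction n with
  | zero => simp [pr]
  | succ n ih =>
    rw [List.ofFn_succ', List.concat_eq_append, List.prod_append, List.prod_singleton, pr_succ,
      ih (fun i => f i.castSucc) (fun m => by rw [← h]; rfl), ← h (Fin.last n)]
    rfl

lemma pow_sum {A E : Type} [Ring A] [Fintype E] (a : E → A) (n : ℕ) :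
    (∑ e, a e) ^ n = ∑ w : Fin n → E, (List.ofFn (fun m => a (w m))).prod := by
  induction n with
  | zero => simp
  | succ n ih =>
    rw [pow_succ', ih, Finset.sum_mul_sum, ← (Fin.consEquiv (fun _ : Fin (n + 1) => E)).sum_comp,
      Fintype.sum_prod_type]
    refine Finset.sum_congr rfl fun e _ => Finset.sum_congr rfl fun w _ => ?_
    rw [List.ofFn_succ, List.prod_cons]
    rfl

/-- Rotation of words. -/
def rot (n : ℕ) (E : Type) : Equiv.Perm (ZMod (n + 1) → E) where
  toFun w := fun m => w (m + 1)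
  invFun w := fun m => w (m - 1)
  left_inv w := by ext m; simp
  right_inv w := by ext m; simp

lemma rot_iterate (n : ℕ) (E : Type) (w : ZMod (n + 1) → E) (d : ℕ) (m : ZMod (n + 1)) :
    ((rot n E)^[d] w) m = w (m + d) := by
  induction d generalizing w with
  | zero => simp
  | succ d ih =>
    rw [Function.iterate_succ_apply, ih]
    show w (m + d + 1) = _
    push_cast
    rw [add_assoc]

theorem cyc_abs {A E : Type} [Ring A] [Fintype E] (a : E → A) (τ : A →+ ℤ)
    (hτ : ∀ x y, τ (x * y) = τ (y * x)) (k : ℕ) (hk : 1 ≤ k) (S : Set A) (hS : ∀ e, a e ∈ S)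
    (hmul : ∀ x ∈ S, ∀ y ∈ S, x * y ∈ S) (hz : ∀ x ∈ S, ∀ s, 1 ≤ s → τ (x ^ (2 ^ k * s)) = 0)
    (j : ℕ) (hj : 1 ≤ j) :
    (2 : ℤ) ^ (padicValNat 2 j) ∣ 2 ^ (k - 1) * τ ((∑ e, a e) ^ j) := by
  classical
  obtain ⟨n, rfl⟩ : ∃ n, j = n + 1 := ⟨j - 1, by omega⟩
  have h1 : τ ((∑ e, a e) ^ (n + 1)) =
      ∑ w : ZMod (n + 1) → E, τ (pr (fun m => a (w (m : ℕ))) (n + 1)) := by
    rw [pow_sum, map_sum]
    refine Finset.sum_congr rfl fun w _ => ?_
    congr 1
    apply ofFn_prod
    intro m
    congr 2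
    exact ZMod.natCast_zmod_val (n := n + 1) m
  rw [h1]
  apply orbit_sum (rot n E)
  · intro w
    show τ (pr (fun m : ℕ => a (w ((m : ℕ) + 1))) (n + 1)) = _
    rw [pr_succ, pr_succ' (fun m => a (w (m : ℕ))), hτ]
    congr 2
    · have : ((n : ZMod (n + 1)) + 1) = 0 := by
        have := ZMod.natCast_self (n + 1)
        push_cast at this
        exact this
      rw [this]; simp
    · congr 1
      funext m
      push_cast
      rfl
  · intro w hw
    set d := Function.minimalPeriod (rot n E) w with hd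
    have hp : (rot n E)^[d] w = w := Function.iterate_minimalPeriod
    have hn : (rot n E)^[n + 1] w = w := by
      funext m
      rw [rot_iterate, ZMod.natCast_self, add_zero]
    have hdn : d ∣ n + 1 := Function.IsPeriodicPt.minimalPeriod_dvd hn
    obtain ⟨s, hs⟩ := hdn
    have hd0 : d ≠ 0 := by rintro h; rw [h] at hs; omega
    have hs0 : s ≠ 0 := by rintro h; rw [h] at hs; omega
    have hper : ∀ m : ℕ, a (w ((m + d : ℕ) : ZMod (n + 1))) = a (w (m : ZMod (n + 1))) := by
      intro m
      push_cast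
      rw [← rot_iterate n E w d m, hp]
    have hpr : pr (fun m => a (w (m : ℕ))) (n + 1) = pr (fun m => a (w (m : ℕ))) d ^ s := by
      exact (congrArg (pr (fun m : ℕ => a (w (m : ℕ)))) hs).trans (pr_period _ d hper s)
    have hmem : pr (fun m => a (w (m : ℕ))) d ∈ S := by
      obtain ⟨d', hd'⟩ : ∃ d', d = d' + 1 := ⟨d - 1, by omega⟩
      rw [hd']
      exact pr_mem _ S (fun m => hS _) hmul d'
    have hks : ¬ 2 ^ k ∣ s := by
      rintro ⟨t, rfl⟩
      apply hw
      rw [hpr]
      apply hz _ hmem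
      rcases Nat.eq_zero_or_pos t with h | h
      · rw [h] at hs0; simp at hs0
      · exact h
    have hv : padicValNat 2 s ≤ k - 1 := by
      by_contra hcon
      apply hks
      exact (padicValNat_dvd_iff_le hs0).2 (by omega)
    have hval : padicValNat 2 (n + 1) = padicValNat 2 d + padicValNat 2 s := by
      rw [hs, padicValNat.mul hd0 hs0]
    have h3 : (2 : ℤ) ^ padicValNat 2 d ∣ (d : ℤ) := by
      exact_mod_cast (pow_padicValNat_dvd : 2 ^ padicValNat 2 d ∣ d)
    have h4 : (2 : ℤ) ^ padicValNat 2 (n + 1) ∣ 2 ^ (k - 1) * 2 ^ padicValNat 2 d := by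
      rw [← pow_add]
      exact pow_dvd_pow _ (by omega)
    exact h4.trans (mul_dvd_mul_left _ h3)

/-- The sum of the coefficients over the conjugacy class of `z`. -/
noncomputable def tz {Q : Type} [Group Q] [Fintype Q] (z : Q) : MonoidAlgebra ℤ Q →+ ℤ := by
  classical
  exact
  { toFun := fun p => ∑ g ∈ Finset.univ.filter (fun g : Q => IsConj g z), p.coeff g
    map_zero' := by simp
    map_add' := fun p q => by simp [Finset.sum_add_distrib] }

lemma tz_single {Q : Type} [Group Q] [Fintype Q] (z g : Q) (c : ℤ) :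
    (IsConj g z → tz z (MonoidAlgebra.single g c) = c) ∧
      (¬ IsConj g z → tz z (MonoidAlgebra.single g c) = 0) := by
  classical
  constructor
  · intro h
    show ∑ x ∈ Finset.univ.filter (fun x : Q => IsConj x z), (MonoidAlgebra.single g c).coeff x = c
    rw [Finset.sum_eq_single g]
    · simp
    · intro b _ hb
      simp [hb.symm]
    · intro hg
      exact absurd (by simpa using h) hg
  · intro h
    show ∑ x ∈ Finset.univ.filter (fun x : Q => IsConj x z), (MonoidAlgebra.single g c).coeff x = 0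
    apply Finset.sum_eq_zero
    intro b hb
    have hb' : IsConj b z := by simpa using hb
    have : g ≠ b := by rintro rfl; exact h hb'
    simp [this]

lemma tz_mul_comm {Q : Type} [Group Q] [Fintype Q] (z : Q) (p q : MonoidAlgebra ℤ Q) :
    tz z (p * q) = tz z (q * p) := by
  have h1 : ∀ p q : MonoidAlgebra ℤ Q,
      ((tz z).comp (AddMonoidHom.mulRight q)) p = ((tz z).comp (AddMonoidHom.mulLeft q)) p := by
    intro p q
    apply DFunLike.congr_fun
    refine MonoidAlgebra.addMonoidHom_ext fun g c => ?_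
    show tz z (MonoidAlgebra.single g c * q) = tz z (q * MonoidAlgebra.single g c)
    have h2 : ∀ q : MonoidAlgebra ℤ Q,
      ((tz z).comp (AddMonoidHom.mulLeft (MonoidAlgebra.single g c))) q =
        ((tz z).comp (AddMonoidHom.mulRight (MonoidAlgebra.single g c))) q := by
      intro q
      apply DFunLike.congr_fun
      refine MonoidAlgebra.addMonoidHom_ext fun h e => ?_
      show tz z (MonoidAlgebra.single g c * MonoidAlgebra.single h e) =
        tz z (MonoidAlgebra.single h e * MonoidAlgebra.single g c)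
      rw [MonoidAlgebra.single_mul_single, MonoidAlgebra.single_mul_single, mul_comm e c]
      have hc : IsConj (g * h) (h * g) := isConj_iff.2 ⟨h, by group⟩
      by_cases hz : IsConj (g * h) z
      · rw [(tz_single z _ _).1 hz, (tz_single z _ _).1 (hc.symm.trans hz)]
      · rw [(tz_single z _ _).2 hz, (tz_single z _ _).2 (fun h' => hz (hc.trans h'))]
    exact h2 q
  exact h1 p q

theorem cz_eq {Q : Type} [Group Q] [Fintype Q] (z : Q) {ι : Type} [Fintype ι]
    (X : Matrix ι ι (MonoidAlgebra ℤ Q)) : cz z X = ∑ i, tz z (X i i) := rfl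

/-- `cz` as an additive map. -/
noncomputable def czHom {Q : Type} [Group Q] [Fintype Q] (z : Q) (ι : Type) [Fintype ι] :
    Matrix ι ι (MonoidAlgebra ℤ Q) →+ ℤ where
  toFun X := cz z X
  map_zero' := by simp [cz_eq]
  map_add' X Y := by simp [cz_eq, Finset.sum_add_distrib]

lemma czHom_mul_comm {Q : Type} [Group Q] [Fintype Q] (z : Q) (ι : Type) [Fintype ι]
    (X Y : Matrix ι ι (MonoidAlgebra ℤ Q)) : czHom z ι (X * Y) = czHom z ι (Y * X) := by
  show cz z (X * Y) = cz z (Y * X)
  rw [cz_eq, cz_eq]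
  simp only [Matrix.mul_apply, map_sum]
  rw [Finset.sum_comm]
  refine Finset.sum_congr rfl fun i _ => Finset.sum_congr rfl fun l _ => ?_
  rw [tz_mul_comm]

theorem cyc : CycS := by
  intro Q _ _ z k hk hroot ι _ _ X j hj
  classical
  let a : ι × ι × Q → Matrix ι ι (MonoidAlgebra ℤ Q) := fun e =>
    Matrix.single e.1 e.2.1 (MonoidAlgebra.single e.2.2 ((X e.1 e.2.1).coeff e.2.2))
  have hX : X = ∑ e, a e := by
    rw [Fintype.sum_prod_type]
    simp only [Fintype.sum_prod_type]
    have h1 : ∀ i i' : ι, ∑ g : Q, a (i, i', g) = Matrix.single i i' (X i i') := by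
      intro i i'
      show ∑ g : Q, Matrix.single i i' (MonoidAlgebra.single g ((X i i').coeff g)) = _
      have h2 : ∑ g : Q, MonoidAlgebra.single g ((X i i').coeff g) = X i i' := by
        ext g
        simp [MonoidAlgebra.coeff_sum]
      conv_rhs => rw [← h2]
      exact (map_sum (Matrix.singleAddMonoidHom (α := MonoidAlgebra ℤ Q) i i') _ _).symm
    simp only [h1]
    exact Matrix.matrix_eq_sum_single X
  have key := cyc_abs a (czHom z ι) (czHom_mul_comm z ι) k hk
    {x | ∃ i i' g c, x = Matrix.single i i' (MonoidAlgebra.single g c)} ?_ ?_ ?_ j hj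
  · rw [← hX] at key
    exact key
  · intro e
    exact ⟨_, _, _, _, rfl⟩
  · rintro _ ⟨i, i', g, c, rfl⟩ _ ⟨l, l', h, e, rfl⟩
    by_cases hil : i' = l
    · subst hil
      refine ⟨i, l', g * h, c * e, ?_⟩
      rw [Matrix.single_mul_single_same, MonoidAlgebra.single_mul_single]
    · refine ⟨i, l', 1, 0, ?_⟩
      rw [Matrix.single_mul_single_of_ne _ _ _ _ hil]
      simp
  · rintro _ ⟨i, i', g, c, rfl⟩ s hs
    have h2 : 2 ≤ 2 ^ k * s := by
      have : 2 ^ 1 ≤ 2 ^ k := Nat.pow_le_pow_right (by norm_num) hk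
      nlinarith
    by_cases hii : i = i'
    · subst hii
      have hp : ∀ m : ℕ, (Matrix.single i i (MonoidAlgebra.single g c) :
          Matrix ι ι (MonoidAlgebra ℤ Q)) ^ (m + 1) =
          Matrix.single i i (MonoidAlgebra.single (g ^ (m + 1)) (c ^ (m + 1))) := by
        intro m
        induction m with
        | zero => simp
        | succ m ih =>
          rw [pow_succ, ih, Matrix.single_mul_single_same, MonoidAlgebra.single_mul_single,
            ← pow_succ, ← pow_succ]
      obtain ⟨m, hm⟩ : ∃ m, 2 ^ k * s = m + 1 := ⟨2 ^ k * s - 1, by omega⟩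
      rw [hm, hp]
      show cz z _ = 0
      rw [cz_eq]
      apply Finset.sum_eq_zero
      intro l _
      by_cases hl : i = l
      · subst hl
        rw [Matrix.single_apply_same]
        apply (tz_single z _ _).2
        intro hc
        rw [← hm] at hc
        obtain ⟨u, hu⟩ := isConj_iff.1 hc
        apply hroot (u * g ^ s * u⁻¹)
        rw [conj_pow, ← pow_mul, mul_comm s, hu]
      · rw [Matrix.single_apply_of_row_ne hl]
        exact map_zero _
    · have h0 : (Matrix.single i i' (MonoidAlgebra.single g c) :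
          Matrix ι ι (MonoidAlgebra ℤ Q)) ^ 2 = 0 := by
        rw [pow_two, Matrix.single_mul_single_of_ne _ _ _ _ (Ne.symm hii)]
      obtain ⟨m, hm⟩ : ∃ m, 2 ^ k * s = 2 + m := ⟨2 ^ k * s - 2, by omega⟩
      rw [hm, pow_add, h0, zero_mul, map_zero]

end KG.H65
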